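import Pool.Agent.Helper77.DI.Base

/-!
DI-HW for MP_b07a0a: a nonzero homogeneous element of a subspace stable under columnwise linear
substitutions gives a highest weight element of the same degree.
-/

namespace Pool.Agent.Helper77.DI

open MvPolynomial

namespace HwAux

noncomputable section

/-- the weight of a monomial -/
def wt {ι : Type} [Fintype ι] (m : (ι → Fin 2) →₀ ℕ) : ι →₀ ℕ :=
  Finsupp.equivFunOnFinite.symm fun i => m.sum fun α e => e * (α i : ℕ)

theorem wt_apply {ι : Type} [Fintype ι] (m : (ι → Fin 2) →₀ ℕ) (i : ι) :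
    wt m i = m.sum fun α e => e * (α i : ℕ) := rfl

/-- total weight -/
def tw {ι : Type} [Fintype ι] (m : (ι → Fin 2) →₀ ℕ) : ℕ :=
  ∑ i, wt m i

theorem wt_add {ι : Type} [Fintype ι] (m n : (ι → Fin 2) →₀ ℕ) : wt (m + n) = wt m + wt n := by
  classical
  ext i
  rw [Finsupp.add_apply, wt_apply, wt_apply, wt_apply]
  rw [Finsupp.sum_add_index']
  · intro a; simp
  · intro a b c; ring

theorem tw_add {ι : Type} [Fintype ι] (m n : (ι → Fin 2) →₀ ℕ) : tw (m + n) = tw m + tw n := by
  simp [tw, wt_add, Finset.sum_add_distrib]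

theorem wt_single {ι : Type} [Fintype ι] (α : ι → Fin 2) (e : ℕ) (i : ι) :
    wt (Finsupp.single α e) i = e * (α i : ℕ) := by
  rw [wt_apply, Finsupp.sum_single_index]
  simp

/-- the component of weight b -/
def comp {ι : Type} [Fintype ι] [DecidableEq ι] (b : ι →₀ ℕ) (f : MvPolynomial (ι → Fin 2) ℂ) :
    MvPolynomial (ι → Fin 2) ℂ :=
  ∑ m ∈ f.support.filter (fun m => wt m = b), monomial m (coeff m f)

theorem coeff_comp {ι : Type} [Fintype ι] [DecidableEq ι] (b : ι →₀ ℕ)
    (f : MvPolynomial (ι → Fin 2) ℂ) (m : (ι → Fin 2) →₀ ℕ) :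
    coeff m (comp b f) = if wt m = b then coeff m f else 0 := by
  rw [comp, coeff_sum]
  simp only [coeff_monomial]
  rw [Finset.sum_ite_eq']
  by_cases h : wt m = b
  · by_cases h2 : coeff m f = 0
    · simp [h, h2]
    · rw [if_pos, if_pos h]
      simp [h, h2]
  · simp [h]


/-- the diagonal matrices -/
def diagA {ι : Type} (t : ι → ℂ) : ι → Fin 2 → Fin 2 → ℂ :=
  fun i c' c => if c' = c then (if c = 1 then t i else 1) else 0

/-- the unipotent matrices -/
def uniA {ι : Type} [DecidableEq ι] (i : ι) (τ : ℂ) : ι → Fin 2 → Fin 2 → ℂ :=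
  fun j c' c => if c' = c then 1 else if j = i ∧ c' = 0 ∧ c = 1 then τ else 0

theorem lmap_X {ι : Type} [Fintype ι] [DecidableEq ι] (A : ι → Fin 2 → Fin 2 → ℂ) (α : ι → Fin 2) :
    lmap (V := fun _ => Fin 2) (V' := fun _ => Fin 2) A (X α) =
      ∑ β : ι → Fin 2, C (∏ i, A i (β i) (α i)) * X β := by
  classical
  rw [lmap, aeval_X, finsum_eq_sum_of_fintype]
  refine Finset.sum_congr rfl fun β _ => ?_
  rw [finprod_eq_prod_of_fintype]

theorem pow_weight {ι : Type} [Fintype ι] (t : ι → ℂ) (α : ι → Fin 2) :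
    (∏ i, (if α i = 1 then t i else 1)) = ∏ i, t i ^ (α i : ℕ) := by
  refine Finset.prod_congr rfl fun i _ => ?_
  have h : ∀ c : Fin 2, (if c = 1 then t i else 1) = t i ^ (c : ℕ) := by
    intro c
    fin_cases c <;> simp
  exact h (α i)

theorem lmap_diag_X {ι : Type} [Fintype ι] (t : ι → ℂ) (α : ι → Fin 2) :
    lmap (V := fun _ => Fin 2) (V' := fun _ => Fin 2) (diagA t) (X α) =
      C (∏ i, t i ^ (α i : ℕ)) * X α := by
  classical
  rw [lmap_X, Finset.sum_eq_single α]
  · rw [← pow_weight]
    simp [diagA]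
  · intro β _ hβ
    obtain ⟨i, hi⟩ := Function.ne_iff.mp hβ
    rw [Finset.prod_eq_zero (Finset.mem_univ i)]
    · simp
    · simp [diagA, hi]
  · intro h
    exact absurd (Finset.mem_univ α) h

theorem lmap_diag_monomial {ι : Type} [Fintype ι] (t : ι → ℂ) (m : (ι → Fin 2) →₀ ℕ) (c : ℂ) :
    lmap (V := fun _ => Fin 2) (V' := fun _ => Fin 2) (diagA t) (monomial m c) =
      (∏ i, t i ^ (wt m i)) • monomial m c := by
  classical
  induction m using Finsupp.induction generalizing c with
  | zero =>
    have h0 : ∀ i, wt (0 : (ι → Fin 2) →₀ ℕ) i = 0 := by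
      intro i
      rw [wt_apply]
      simp
    simp only [h0, pow_zero, Finset.prod_const_one, one_smul]
    have : (monomial 0 c : MvPolynomial (ι → Fin 2) ℂ) = C c := rfl
    rw [this]
    exact (lmap _).commutes c
  | single_add α e m _ _ ih =>
    have hx : (monomial (Finsupp.single α e + m) c : MvPolynomial (ι → Fin 2) ℂ) =
        X α ^ e * monomial m c := by
      rw [X_pow_eq_monomial, monomial_mul, one_mul]
    rw [hx, map_mul, map_pow, lmap_diag_X, ih]
    have hw : (∏ i, t i ^ (wt (Finsupp.single α e + m) i)) =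
        (∏ i, t i ^ (α i : ℕ)) ^ e * ∏ i, t i ^ (wt m i) := by
      rw [← Finset.prod_pow, ← Finset.prod_mul_distrib]
      refine Finset.prod_congr rfl fun i _ => ?_
      rw [wt_add, Finsupp.add_apply, wt_single, ← pow_mul, ← pow_add]
      congr 2
      ring
    rw [hw, mul_pow, ← C_pow, MvPolynomial.smul_eq_C_mul, MvPolynomial.smul_eq_C_mul, C_mul]
    ring

theorem comp_mem {ι : Type} [Fintype ι] [DecidableEq ι]
    (Q : Submodule ℂ (MvPolynomial (ι → Fin 2) ℂ))
    (hQ : ∀ (A : ι → Fin 2 → Fin 2 → ℂ), ∀ f ∈ Q, lmap (V := fun _ => Fin 2)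
      (V' := fun _ => Fin 2) A f ∈ Q) (f : MvPolynomial (ι → Fin 2) ℂ) (hf : f ∈ Q)
    (b : ι →₀ ℕ) : comp b f ∈ Q := by
  by_contra hb
  obtain ⟨φ, hφ, hφQ⟩ := Submodule.exists_dual_map_eq_bot_of_notMem hb inferInstance
  apply hφ
  have hz : ∀ g ∈ Q, φ g = 0 := by
    intro g hg
    have : φ g ∈ Q.map φ := Submodule.mem_map_of_mem hg
    rw [hφQ] at this
    simpa using this
  let P : MvPolynomial ι ℂ :=
    ∑ m ∈ f.support, monomial (wt m) (φ (monomial m (coeff m f)))
  have hP : P = 0 := by
    refine MvPolynomial.funext fun t => ?_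
    rw [map_zero]
    have h1 := hz _ (hQ (diagA t) f hf)
    conv at h1 =>
      lhs
      rw [f.as_sum]
    rw [map_sum, map_sum] at h1
    rw [map_sum, ← h1]
    refine Finset.sum_congr rfl fun m _ => ?_
    rw [lmap_diag_monomial, map_smul, eval_monomial, smul_eq_mul, mul_comm]
    congr 1
    rw [Finsupp.prod_fintype]
    intro i
    simp
  have h2 : coeff b P = 0 := by
    rw [hP, coeff_zero]
  rw [coeff_sum] at h2
  simp only [coeff_monomial] at h2
  rw [← Finset.sum_filter] at h2
  rw [comp, map_sum]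
  exact h2

theorem lmap_uni {ι : Type} [Fintype ι] [DecidableEq ι] (i : ι) (τ : ℂ) :
    lmap (V := fun _ => Fin 2) (V' := fun _ => Fin 2) (uniA i τ) = uMap i τ := by
  refine MvPolynomial.algHom_ext fun α => ?_
  rw [lmap_X, uMap, aeval_X]
  have h01 : (1 : Fin 2) ≠ 0 := by decide
  have hself : (∏ j, uniA i τ j (α j) (α j)) = 1 := by
    refine Finset.prod_eq_one fun j _ => ?_
    simp [uniA]
  split_ifs with h
  · have hne : Function.update α i 0 ≠ α := by
      intro he
      have := congrFun he i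
      rw [Function.update_self, h] at this
      exact h01 this.symm
    rw [Finset.sum_eq_add_of_mem α (Function.update α i 0) (Finset.mem_univ _) (Finset.mem_univ _)
      hne.symm, hself, C_1, one_mul]
    · congr 2
      congr 1
      rw [Finset.prod_eq_single i]
      · simp [uniA, h]
      · intro j _ hj
        rw [Function.update_of_ne hj]
        simp [uniA]
      · intro hh
        exact absurd (Finset.mem_univ i) hh
    · intro β _ hβ
      have hex : ∃ j, uniA i τ j (β j) (α j) = 0 := by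
        by_contra hno
        push Not at hno
        have h1 : ∀ j, j ≠ i → β j = α j := by
          intro j hj
          by_contra hne2
          apply hno j
          simp [uniA, hne2, hj]
        have h2 : β i = 0 ∨ β i = 1 := by
          have : ∀ c : Fin 2, c = 0 ∨ c = 1 := by decide
          exact this _
        rcases h2 with h2 | h2
        · apply hβ.2
          funext j
          by_cases hj : j = i
          · rw [hj, Function.update_self, h2]
          · rw [Function.update_of_ne hj, h1 j hj]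
        · apply hβ.1
          funext j
          by_cases hj : j = i
          · rw [hj, h2, h]
          · rw [h1 j hj]
      obtain ⟨j, hj⟩ := hex
      rw [Finset.prod_eq_zero (Finset.mem_univ j) hj]
      simp
  · rw [Finset.sum_eq_single α, hself, C_1, one_mul]
    · intro β _ hβ
      have hex : ∃ j, uniA i τ j (β j) (α j) = 0 := by
        by_contra hno
        push Not at hno
        apply hβ
        funext j
        by_contra hne2
        apply hno j
        by_cases hj : j = i
        · subst hj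
          simp [uniA, hne2, h]
        · simp [uniA, hne2, hj]
      obtain ⟨j, hj⟩ := hex
      rw [Finset.prod_eq_zero (Finset.mem_univ j) hj]
      simp
    · intro hh
      exact absurd (Finset.mem_univ α) hh

/-- all monomials have total weight less than a -/
def LtW {ι : Type} [Fintype ι] (a : ℕ) (p : MvPolynomial (ι → Fin 2) ℂ) : Prop :=
  ∀ m ∈ p.support, tw m < a

theorem LtW.add {ι : Type} [Fintype ι] {a : ℕ} {p q : MvPolynomial (ι → Fin 2) ℂ}
    (hp : LtW a p) (hq : LtW a q) : LtW a (p + q) := by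
  classical
  intro m hm
  have := MvPolynomial.support_add hm
  rcases Finset.mem_union.mp this with h | h
  · exact hp m h
  · exact hq m h

theorem LtW.mul {ι : Type} [Fintype ι] {a b : ℕ} {p q : MvPolynomial (ι → Fin 2) ℂ}
    (hp : LtW (a + 1) p) (hq : LtW b q) : LtW (a + b) (p * q) := by
  classical
  intro m hm
  have := MvPolynomial.support_mul p q hm
  obtain ⟨x, hx, y, hy, rfl⟩ := Finset.mem_add.mp this
  have h1 := hp x hx
  have h2 := hq y hy
  rw [tw_add]
  omega

theorem LtW.mul' {ι : Type} [Fintype ι] {a b : ℕ} {p q : MvPolynomial (ι → Fin 2) ℂ}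
    (hp : LtW a p) (hq : LtW (b + 1) q) : LtW (a + b) (p * q) := by
  rw [mul_comm, add_comm]
  exact LtW.mul hq hp

/-- p has total weight at most a and the unipotent substitution changes it by lower terms -/
def Good {ι : Type} [Fintype ι] [DecidableEq ι] (i : ι) (τ : ℂ) (a : ℕ)
    (p : MvPolynomial (ι → Fin 2) ℂ) : Prop :=
  LtW (a + 1) p ∧ LtW a (uMap i τ p - p)

theorem Good.mul {ι : Type} [Fintype ι] [DecidableEq ι] {i : ι} {τ : ℂ} {a b : ℕ}
    {p q : MvPolynomial (ι → Fin 2) ℂ} (hp : Good i τ a p) (hq : Good i τ b q) :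
    Good i τ (a + b) (p * q) := by
  have hu : LtW (b + 1) (uMap i τ q) := by
    have : uMap i τ q = (uMap i τ q - q) + q := by ring
    rw [this]
    refine LtW.add (fun m hm => ?_) hq.1
    have := hq.2 m hm
    omega
  refine ⟨?_, ?_⟩
  · have := LtW.mul hp.1 hq.1
    rw [← add_assoc] at this
    exact this
  · rw [map_mul]
    have : uMap i τ p * uMap i τ q - p * q =
        (uMap i τ p - p) * uMap i τ q + p * (uMap i τ q - q) := by ring
    rw [this]
    exact LtW.add (LtW.mul' hp.2 hu) (LtW.mul hp.1 hq.2)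

theorem good_C {ι : Type} [Fintype ι] [DecidableEq ι] (i : ι) (τ c : ℂ) :
    Good i τ 0 (C c) := by
  refine ⟨?_, ?_⟩
  · intro m hm
    have hm0 : m = 0 := by
      by_contra hne
      rw [MvPolynomial.mem_support_iff, coeff_C, if_neg (fun h => hne h.symm)] at hm
      exact hm rfl
    subst hm0
    have : tw (0 : (ι → Fin 2) →₀ ℕ) = 0 := by
      simp [tw, wt_apply]
    omega
  · have : uMap i τ (C c) = C c := (uMap i τ).commutes c
    rw [this, sub_self]
    intro m hm
    simp at hm

theorem tw_single {ι : Type} [Fintype ι] (α : ι → Fin 2) :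
    tw (Finsupp.single α 1) = ∑ i, (α i : ℕ) := by
  simp [tw, wt_single]

theorem ltW_X {ι : Type} [Fintype ι] (α : ι → Fin 2) (c : ℂ) :
    LtW (∑ i, (α i : ℕ) + 1) (C c * X α) := by
  classical
  intro m hm
  rw [MvPolynomial.C_mul_X_eq_monomial] at hm
  have h1 := MvPolynomial.support_monomial_subset hm
  rw [Finset.mem_singleton] at h1
  rw [h1, tw_single]
  omega

theorem good_X {ι : Type} [Fintype ι] [DecidableEq ι] (i : ι) (τ : ℂ) (α : ι → Fin 2) :
    Good i τ (∑ j, (α j : ℕ)) (X α) := by
  refine ⟨?_, ?_⟩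
  · have := ltW_X α 1
    rw [C_1, one_mul] at this
    exact this
  · rw [uMap, aeval_X]
    split_ifs with h
    · rw [add_sub_cancel_left]
      have h1 := ltW_X (Function.update α i 0) τ
      have h2 : ∑ j, (Function.update α i (0 : Fin 2) j : ℕ) + 1 = ∑ j, (α j : ℕ) := by
        rw [← Finset.add_sum_erase _ _ (Finset.mem_univ i),
          ← Finset.add_sum_erase Finset.univ (fun j => (α j : ℕ)) (Finset.mem_univ i)]
        have h3 : ∑ x ∈ Finset.univ.erase i, (Function.update α i (0 : Fin 2) x : ℕ) =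
            ∑ x ∈ Finset.univ.erase i, (α x : ℕ) := by
          refine Finset.sum_congr rfl fun j hj => ?_
          rw [Function.update_of_ne (Finset.ne_of_mem_erase hj)]
        rw [h3, Function.update_self, h]
        simp
        ring
      rw [h2] at h1
      exact h1
    · rw [sub_self]
      intro m hm
      simp at hm

theorem good_monomial {ι : Type} [Fintype ι] [DecidableEq ι] (i : ι) (τ : ℂ)
    (m : (ι → Fin 2) →₀ ℕ) (c : ℂ) : Good i τ (tw m) (monomial m c) := by
  classical
  induction m using Finsupp.induction generalizing c with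
  | zero =>
    have h0 : tw (0 : (ι → Fin 2) →₀ ℕ) = 0 := by
      simp [tw, wt_apply]
    rw [h0]
    exact good_C i τ c
  | single_add α e m _ _ ih =>
    have hx : (monomial (Finsupp.single α e + m) c : MvPolynomial (ι → Fin 2) ℂ) =
        X α ^ e * monomial m c := by
      rw [X_pow_eq_monomial, monomial_mul, one_mul]
    rw [hx, tw_add]
    refine Good.mul ?_ (ih c)
    have : ∀ n : ℕ, Good i τ (tw (Finsupp.single α n)) (X α ^ n) := by
      intro n
      induction n with
      | zero =>
        have h0 : tw (Finsupp.single α 0 : (ι → Fin 2) →₀ ℕ) = 0 := by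
          simp [tw, wt_apply]
        rw [h0, pow_zero, ← C_1]
        exact good_C i τ 1
      | succ n ihn =>
        rw [pow_succ, Finsupp.single_add, tw_add, tw_single]
        exact Good.mul ihn (good_X i τ α)
    exact this e

theorem ltW_sub {ι : Type} [Fintype ι] [DecidableEq ι] (i : ι) (τ : ℂ)
    (g : MvPolynomial (ι → Fin 2) ℂ) (b : ι →₀ ℕ) (hb : ∀ m ∈ g.support, wt m = b) :
    LtW (∑ i, b i) (uMap i τ g - g) := by
  classical
  have h1 : uMap i τ g - g =
      ∑ m ∈ g.support, (uMap i τ (monomial m (coeff m g)) - monomial m (coeff m g)) := by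
    rw [Finset.sum_sub_distrib, ← map_sum, ← g.as_sum]
  rw [h1]
  have h2 : ∀ s : Finset ((ι → Fin 2) →₀ ℕ), s ⊆ g.support → LtW (∑ i, b i)
      (∑ m ∈ s, (uMap i τ (monomial m (coeff m g)) - monomial m (coeff m g))) := by
    intro s
    induction s using Finset.induction_on with
    | empty =>
      intro _ m hm
      simp at hm
    | insert a s ha ih =>
      intro hs
      rw [Finset.sum_insert ha]
      refine LtW.add ?_ (ih fun x hx => hs (Finset.mem_insert_of_mem hx))
      have h3 := (good_monomial i τ a (coeff a g)).2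
      have h4 : tw a = ∑ i, b i := by
        rw [tw, hb a (hs (Finset.mem_insert_self a s))]
      rw [h4] at h3
      exact h3
  exact h2 _ (Finset.Subset.refl _)

theorem homog_uMap {ι : Type} [Fintype ι] [DecidableEq ι] (i : ι) (τ : ℂ) {k : ℕ}
    {g : MvPolynomial (ι → Fin 2) ℂ} (hg : g.IsHomogeneous k) :
    (uMap i τ g).IsHomogeneous k := by
  have := hg.aeval (S := ℂ) (n := 1) (fun α : ι → Fin 2 => if α i = 1 then
    X α + C τ * X (Function.update α i 0) else X α) (fun α => by
      split_ifs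
      · refine (isHomogeneous_X _ _).add ?_
        have h := (isHomogeneous_C (ι → Fin 2) τ).mul (isHomogeneous_X ℂ (Function.update α i 0))
        rw [zero_add] at h
        exact h
      · exact isHomogeneous_X _ _)
  rw [one_mul] at this
  exact this

theorem homog_comp {ι : Type} [Fintype ι] [DecidableEq ι] {k : ℕ}
    {g : MvPolynomial (ι → Fin 2) ℂ} (hg : g.IsHomogeneous k) (b : ι →₀ ℕ) :
    (comp b g).IsHomogeneous k := by
  intro m hm
  rw [coeff_comp] at hm
  apply hg
  intro h
  rw [h] at hm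
  simp at hm

/-- a nonzero homogeneous element gives a nonzero component -/
theorem exists_comp {ι : Type} [Fintype ι] [DecidableEq ι]
    (Q : Submodule ℂ (MvPolynomial (ι → Fin 2) ℂ))
    (hQ : ∀ (A : ι → Fin 2 → Fin 2 → ℂ), ∀ f ∈ Q, lmap (V := fun _ => Fin 2)
      (V' := fun _ => Fin 2) A f ∈ Q)
    (k : ℕ) (f : MvPolynomial (ι → Fin 2) ℂ) (hf : f ∈ Q) (hk : f.IsHomogeneous k)
    (hne : f ≠ 0) :
    ∃ m ∈ f.support, ∃ g ∈ Q, g ≠ 0 ∧ g.IsHomogeneous k ∧ ∀ n ∈ g.support, wt n = wt m := by
  obtain ⟨m, hm⟩ := MvPolynomial.support_nonempty.mpr hne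
  refine ⟨m, hm, comp (wt m) f, comp_mem Q hQ f hf _, ?_, homog_comp hk _, ?_⟩
  · intro h
    have h2 := coeff_comp (wt m) f m
    rw [h, if_pos rfl, coeff_zero] at h2
    exact (MvPolynomial.mem_support_iff.mp hm) h2.symm
  · intro n hn
    rw [MvPolynomial.mem_support_iff, coeff_comp] at hn
    by_contra hno
    rw [if_neg hno] at hn
    exact hn rfl

end

end HwAux

open HwAux in
/-- DI-HW. -/
theorem exists_hw {ι : Type} [Finite ι] [DecidableEq ι]
    (Q : Submodule ℂ (MvPolynomial (ι → Fin 2) ℂ))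
    (hQ : ∀ (A : ι → Fin 2 → Fin 2 → ℂ), ∀ f ∈ Q, lmap (V := fun _ => Fin 2)
      (V' := fun _ => Fin 2) A f ∈ Q)
    (k : ℕ) (f : MvPolynomial (ι → Fin 2) ℂ) (hf : f ∈ Q) (hk : f.IsHomogeneous k)
    (hne : f ≠ 0) :
    ∃ g ∈ Q, g ≠ 0 ∧ ∃ b : ι → ℕ, HW g k b := by
  cases nonempty_fintype ι
  classical
  let W : ℕ → Prop := fun N => ∃ g ∈ Q, g ≠ 0 ∧ g.IsHomogeneous k ∧
    ∃ b : ι →₀ ℕ, (∀ n ∈ g.support, wt n = b) ∧ ∑ i, b i = N
  have hW : ∃ N, W N := by
    obtain ⟨m, _, g, hgQ, hg0, hgk, hgw⟩ := exists_comp Q hQ k f hf hk hne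
    exact ⟨_, g, hgQ, hg0, hgk, wt m, hgw, rfl⟩
  obtain ⟨g, hgQ, hg0, hgk, b, hgb, hbN⟩ := Nat.find_spec hW
  refine ⟨g, hgQ, hg0, fun i => b i, ⟨hgk, ?_, ?_⟩⟩
  · intro m hm i
    rw [← wt_apply, hgb m hm]
  · intro i τ
    by_contra hno
    have hD0 : uMap i τ g - g ≠ 0 := fun h => hno (sub_eq_zero.mp h)
    have hDQ : uMap i τ g - g ∈ Q := by
      refine Q.sub_mem ?_ hgQ
      rw [← lmap_uni]
      exact hQ _ _ hgQ
    have hDk : (uMap i τ g - g).IsHomogeneous k := (homog_uMap i τ hgk).sub hgk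
    obtain ⟨m, hm, g', hgQ', hg0', hgk', hgw'⟩ := exists_comp Q hQ k _ hDQ hDk hD0
    have h1 := ltW_sub i τ g b hgb m hm
    rw [hbN] at h1
    exact Nat.find_min hW h1 ⟨g', hgQ', hg0', hgk', wt m, hgw', rfl⟩

end Pool.Agent.Helper77.DI
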